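import Pool.Agent.H683.SC.Stm

/-!
# Proper colorings of the gadget graph are conflict-free choices (`S_COL` of the project SC)
-/

set_option autoImplicit false

namespace Pool.Agent.H48.SCcol

open Pool.Agent.H683.SC

variable {q : ℕ}

theorem ext_append (h1 h2 : List Hc) (σ τ : ℕ → Fin q) :
    Ext q σ (h1 ++ h2) τ ↔ ∃ ρ, Ext q σ h1 ρ ∧ Ext q ρ h2 τ := by
  induction h1 generalizing σ with
  | nil =>
    constructor
    · intro h
      exact ⟨σ, rfl, h⟩
    · rintro ⟨ρ, h, h'⟩
      have h2 : ρ = σ := h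
      rw [h2] at h'
      exact h'
  | cons x h1 ih =>
    obtain ⟨b, a, d⟩ := x
    cases b with
    | false =>
      show (σ a ≠ σ d ∧ Ext q σ (h1 ++ h2) τ) ↔ ∃ ρ, (σ a ≠ σ d ∧ Ext q σ h1 ρ) ∧ Ext q ρ h2 τ
      rw [ih]
      constructor
      · rintro ⟨h, ρ, h3, h4⟩
        exact ⟨ρ, ⟨h, h3⟩, h4⟩
      · rintro ⟨ρ, ⟨h, h3⟩, h4⟩
        exact ⟨h, ρ, h3, h4⟩
    | true =>
      show (∃ c, c ≠ σ d ∧ Ext q (Function.update σ a c) (h1 ++ h2) τ) ↔
        ∃ ρ, (∃ c, c ≠ σ d ∧ Ext q (Function.update σ a c) h1 ρ) ∧ Ext q ρ h2 τ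
      constructor
      · rintro ⟨c, h, h3⟩
        obtain ⟨ρ, h4, h5⟩ := (ih _).1 h3
        exact ⟨ρ, ⟨c, h, h4⟩, h5⟩
      · rintro ⟨ρ, ⟨c, h, h4⟩, h5⟩
        exact ⟨c, h, (ih _).2 ⟨ρ, h4, h5⟩⟩

theorem ext_false (hs : List Hc) (h : ∀ x ∈ hs, x.1 = false) (σ τ : ℕ → Fin q) :
    Ext q σ hs τ ↔ τ = σ ∧ ∀ x ∈ hs, σ x.2.1 ≠ σ x.2.2 := by
  induction hs with
  | nil =>
    constructor
    · intro h'
      exact ⟨h', fun x hx => absurd hx (List.not_mem_nil)⟩
    · intro h'
      exact h'.1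
  | cons x hs ih =>
    obtain ⟨b, a, d⟩ := x
    have hb : b = false := h (b, a, d) (List.mem_cons_self)
    subst hb
    show (σ a ≠ σ d ∧ Ext q σ hs τ) ↔ _
    rw [ih fun x hx => h x (List.mem_cons_of_mem _ hx)]
    constructor
    · rintro ⟨h1, h2, h3⟩
      refine ⟨h2, ?_⟩
      intro x hx
      rcases List.mem_cons.1 hx with rfl | hx
      · exact h1
      · exact h3 x hx
    · rintro ⟨h1, h2⟩
      exact ⟨h2 (false, a, d) List.mem_cons_self, h1, fun x hx => h2 x (List.mem_cons_of_mem _ hx)⟩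

theorem ext_oth (K X a : ℕ) (σ τ : ℕ → Fin q) :
    Ext q σ (oth K X a) τ ↔ τ = σ ∧ ∀ c < K, c ≠ a → σ X ≠ σ (c + 1) := by
  rw [ext_false]
  · constructor
    · rintro ⟨h1, h2⟩
      refine ⟨h1, fun c hc hca => ?_⟩
      refine h2 (false, X, c + 1) ?_
      unfold oth
      refine List.mem_map.2 ⟨c, ?_, rfl⟩
      rw [List.mem_filter, List.mem_range]
      exact ⟨hc, by simp [hca]⟩
    · rintro ⟨h1, h2⟩
      refine ⟨h1, fun x hx => ?_⟩
      unfold oth at hx
      obtain ⟨c, hc, rfl⟩ := List.mem_map.1 hx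
      rw [List.mem_filter, List.mem_range] at hc
      exact h2 c hc.1 (by simpa using hc.2)
  · intro x hx
    unfold oth at hx
    obtain ⟨c, -, rfl⟩ := List.mem_map.1 hx
    rfl

theorem pal_succ (K : ℕ) : pal (K + 1) = pal K ++ ((true, K + 1, 0) :: (List.range K).map fun d =>
    (false, K + 1, d + 1)) := by
  unfold pal
  rw [List.range_succ, List.flatMap_append]
  simp

theorem ext_blk (K : ℕ) (σ τ : ℕ → Fin q) :
    Ext q σ ((true, K + 1, 0) :: (List.range K).map fun d => (false, K + 1, d + 1)) τ ↔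
      ∃ c, c ≠ σ 0 ∧ (∀ d < K, c ≠ σ (d + 1)) ∧ τ = Function.update σ (K + 1) c := by
  show (∃ c, c ≠ σ 0 ∧ Ext q (Function.update σ (K + 1) c) ((List.range K).map fun d =>
    (false, K + 1, d + 1)) τ) ↔ _
  refine exists_congr fun c => and_congr_right fun _ => ?_
  rw [ext_false]
  · constructor
    · rintro ⟨h1, h2⟩
      refine ⟨fun d hd => ?_, h1⟩
      have h3 := h2 (false, K + 1, d + 1) (List.mem_map.2 ⟨d, List.mem_range.2 hd, rfl⟩)
      simp only at h3
      rw [Function.update_self, Function.update_of_ne (by omega)] at h3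
      exact h3
    · rintro ⟨h1, h2⟩
      refine ⟨h2, fun x hx => ?_⟩
      obtain ⟨d, hd, rfl⟩ := List.mem_map.1 hx
      rw [List.mem_range] at hd
      simp only
      rw [Function.update_self, Function.update_of_ne (by omega)]
      exact h1 d hd
  · intro x hx
    obtain ⟨d, -, rfl⟩ := List.mem_map.1 hx
    rfl

theorem pal_fwd (K : ℕ) (c : Fin q) (ρ : ℕ → Fin q) (h : Ext q (fun _ => c) (pal K) ρ) :
    ∀ a ≤ K, ∀ b ≤ K, ρ a = ρ b → a = b := by
  induction K generalizing ρ with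
  | zero =>
    intro a ha b hb _
    omega
  | succ K ih =>
    rw [pal_succ, ext_append] at h
    obtain ⟨ρ', h1, h2⟩ := h
    rw [ext_blk] at h2
    obtain ⟨e, he0, he, rfl⟩ := h2
    have hinj := ih ρ' h1
    have hne : ∀ a ≤ K, e ≠ ρ' a := by
      intro a ha
      rcases Nat.eq_zero_or_pos a with rfl | h3
      · exact he0
      · obtain ⟨d, rfl⟩ : ∃ d, a = d + 1 := ⟨a - 1, by omega⟩
        exact he d (by omega)
    intro a ha b hb hab
    rcases Nat.lt_or_ge K a with h3 | h3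
    · obtain rfl : a = K + 1 := by omega
      rcases Nat.lt_or_ge K b with h4 | h4
      · omega
      · rw [Function.update_self, Function.update_of_ne (by omega)] at hab
        exact absurd hab (hne b h4)
    · rw [Function.update_of_ne (by omega)] at hab
      rcases Nat.lt_or_ge K b with h4 | h4
      · obtain rfl : b = K + 1 := by omega
        rw [Function.update_self] at hab
        exact absurd hab.symm (hne a h3)
      · rw [Function.update_of_ne (by omega)] at hab
        exact hinj a h3 b h4 hab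

/-- the standard coloring of the palette -/
def pc (K₀ K : ℕ) (a : ℕ) : Fin (K₀ + 1) :=
  if a ≤ K then ⟨min a K₀, by omega⟩ else ⟨0, by omega⟩

theorem pal_bwd (K₀ K : ℕ) (hK : K ≤ K₀) :
    Ext (K₀ + 1) (fun _ => ⟨0, by omega⟩) (pal K) (pc K₀ K) := by
  induction K with
  | zero =>
    show pc K₀ 0 = fun _ => ⟨0, by omega⟩
    funext a
    unfold pc
    split_ifs with h
    · apply Fin.ext
      show min a K₀ = 0
      omega
    · rfl
  | succ K ih =>
    rw [pal_succ, ext_append]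
    refine ⟨pc K₀ K, ih (by omega), ?_⟩
    rw [ext_blk]
    refine ⟨⟨K + 1, by omega⟩, ?_, ?_, ?_⟩
    · unfold pc
      rw [if_pos (by omega)]
      intro h
      have h2 := congrArg Fin.val h
      simp at h2
    · intro d hd
      unfold pc
      rw [if_pos (by omega)]
      intro h
      have h2 := congrArg Fin.val h
      have h3 : K + 1 = min (d + 1) K₀ := h2
      omega
    · funext a
      by_cases h : a = K + 1
      · subst h
        rw [Function.update_self]
        unfold pc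
        rw [if_pos le_rfl]
        apply Fin.ext
        show min (K + 1) K₀ = K + 1
        omega
      · rw [Function.update_of_ne h]
        unfold pc
        by_cases h2 : a ≤ K
        · rw [if_pos (by omega), if_pos h2]
        · rw [if_neg (by omega), if_neg h2]

theorem rws_succ (K g : ℕ) : rws K (g + 1) = rws K g ++ [(true, K + 1 + g, 0)] := by
  unfold rws
  rw [List.range_succ, List.map_append]
  rfl

theorem rws_fwd (K g : ℕ) (σ τ : ℕ → Fin q) (h : Ext q σ (rws K g) τ) :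
    (∀ a, a ≤ K → τ a = σ a) ∧ ∀ i < g, τ (K + 1 + i) ≠ σ 0 := by
  induction g generalizing τ with
  | zero =>
    have h2 : τ = σ := h
    subst h2
    exact ⟨fun a _ => rfl, fun i hi => by omega⟩
  | succ g ih =>
    rw [rws_succ, ext_append] at h
    obtain ⟨ρ, h1, c, hc, h2⟩ := h
    have h3 : τ = Function.update ρ (K + 1 + g) c := h2
    obtain ⟨h4, h5⟩ := ih ρ h1
    subst h3
    refine ⟨fun a ha => ?_, fun i hi => ?_⟩
    · rw [Function.update_of_ne (by omega)]
      exact h4 a ha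
    · by_cases h6 : i = g
      · subst h6
        rw [Function.update_self, ← h4 0 (by omega)]
        exact hc
      · rw [Function.update_of_ne (by omega)]
        exact h5 i (by omega)

theorem rws_bwd (K g : ℕ) (σ : ℕ → Fin q) (ψ : ℕ → Fin q) (hψ : ∀ i < g, ψ i ≠ σ 0) :
    Ext q σ (rws K g) (fun a => if K + 1 ≤ a ∧ a < K + 1 + g then ψ (a - (K + 1)) else σ a) := by
  induction g with
  | zero =>
    show (fun a => if K + 1 ≤ a ∧ a < K + 1 + 0 then ψ (a - (K + 1)) else σ a) = σ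
    funext a
    rw [if_neg (by omega)]
  | succ g ih =>
    rw [rws_succ, ext_append]
    refine ⟨_, ih fun i hi => hψ i (by omega), ψ g, ?_, ?_⟩
    · show ψ g ≠ if K + 1 ≤ 0 ∧ 0 < K + 1 + g then ψ (0 - (K + 1)) else σ 0
      rw [if_neg (by omega)]
      exact hψ g (by omega)
    · show (fun a => if K + 1 ≤ a ∧ a < K + 1 + (g + 1) then ψ (a - (K + 1)) else σ a) =
        Function.update (fun a => if K + 1 ≤ a ∧ a < K + 1 + g then ψ (a - (K + 1)) else σ a)
          (K + 1 + g) (ψ g)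
      funext a
      by_cases h : a = K + 1 + g
      · subst h
        rw [Function.update_self, if_pos (by omega)]
        congr 1
        omega
      · rw [Function.update_of_ne h]
        by_cases h2 : K + 1 ≤ a ∧ a < K + 1 + g
        · rw [if_pos h2, if_pos (by omega)]
        · rw [if_neg h2, if_neg (by omega)]

theorem ext_gad (K g : ℕ) (f : (ℕ × ℕ) × (ℕ × ℕ)) (hf1 : f.1.1 < g) (hf2 : f.2.1 < g)
    (σ τ : ℕ → Fin q) :
    Ext q σ (gad K g f) τ ↔ ∃ x, x ≠ σ (K + 1 + f.1.1) ∧ (∀ c < K, c ≠ f.1.2 → x ≠ σ (c + 1)) ∧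
      ∃ y, y ≠ σ (K + 1 + f.2.1) ∧ (∀ c < K, c ≠ f.2.2 → y ≠ σ (c + 1)) ∧ x ≠ y ∧
        τ = Function.update (Function.update σ (K + 1 + g) x) (K + 2 + g) y := by
  unfold gad
  show (∃ x, x ≠ σ (K + 1 + f.1.1) ∧ Ext q (Function.update σ (K + 1 + g) x) _ τ) ↔ _
  refine exists_congr fun x => and_congr_right fun _ => ?_
  rw [ext_append]
  constructor
  · rintro ⟨ρ, h1, y, hy, h2⟩
    rw [ext_oth] at h1
    obtain ⟨rfl, h1⟩ := h1
    rw [ext_append] at h2
    obtain ⟨ρ, h3, h4, h5⟩ := h2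
    rw [ext_oth] at h3
    obtain ⟨rfl, h3⟩ := h3
    have h6 : τ = Function.update (Function.update σ (K + 1 + g) x) (K + 2 + g) y := h5
    refine ⟨fun c hc hca => ?_, y, ?_, fun c hc hca => ?_, ?_, h6⟩
    · have h7 := h1 c hc hca
      rw [Function.update_self, Function.update_of_ne (by omega)] at h7
      exact h7
    · rw [Function.update_of_ne (by omega)] at hy
      exact hy
    · have h7 := h3 c hc hca
      rw [Function.update_self, Function.update_of_ne (by omega),
        Function.update_of_ne (by omega)] at h7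
      exact h7
    · rw [Function.update_of_ne (by omega), Function.update_self, Function.update_self] at h4
      exact h4
  · rintro ⟨h1, y, hy, h3, h4, rfl⟩
    refine ⟨Function.update σ (K + 1 + g) x, ?_, y, ?_, ?_⟩
    · rw [ext_oth]
      refine ⟨rfl, fun c hc hca => ?_⟩
      rw [Function.update_self, Function.update_of_ne (by omega)]
      exact h1 c hc hca
    · rw [Function.update_of_ne (by omega)]
      exact hy
    · rw [ext_append]
      refine ⟨_, (ext_oth _ _ _ _ _).2 ⟨rfl, fun c hc hca => ?_⟩, ?_, rfl⟩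
      · rw [Function.update_self, Function.update_of_ne (by omega),
          Function.update_of_ne (by omega)]
        exact h3 c hc hca
      · rw [Function.update_of_ne (by omega), Function.update_self, Function.update_self]
        exact h4

/-- the coloring of the palette and of the rows -/
def Inv (K g : ℕ) (φ : ℕ → ℕ) (σ : ℕ → Fin (K + 1)) : Prop :=
  (∀ a ≤ K, ∀ b ≤ K, σ a = σ b → a = b) ∧ ∀ i < g, φ i < K ∧ σ (K + 1 + i) = σ (φ i + 1)

theorem inv_surj {K g : ℕ} {φ : ℕ → ℕ} {σ : ℕ → Fin (K + 1)}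
    (h : ∀ a ≤ K, ∀ b ≤ K, σ a = σ b → a = b) (x : Fin (K + 1)) : ∃ a ≤ K, σ a = x := by
  have h1 : Function.Injective (fun a : Fin (K + 1) => σ a.1) := by
    intro a b hab
    exact Fin.ext (h a.1 (by omega) b.1 (by omega) hab)
  obtain ⟨a, ha⟩ := Finite.surjective_of_injective h1 x
  exact ⟨a.1, by omega, ha⟩

theorem gad_iff {K g : ℕ} {φ : ℕ → ℕ} {σ : ℕ → Fin (K + 1)} (hI : Inv K g φ σ)
    (f : (ℕ × ℕ) × (ℕ × ℕ)) (hf : f.1.1 < g ∧ f.2.1 < g ∧ f.1.2 < K ∧ f.2.2 < K) :
    (∃ τ, Ext (K + 1) σ (gad K g f) τ) ↔ ¬(φ f.1.1 = f.1.2 ∧ φ f.2.1 = f.2.2) := by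
  obtain ⟨hinj, hrow⟩ := hI
  obtain ⟨f1, f2, f3, f4⟩ := hf
  obtain ⟨r1, r2⟩ := hrow _ f1
  obtain ⟨r3, r4⟩ := hrow _ f2
  constructor
  · rintro ⟨τ, h⟩ ⟨c1, c2⟩
    rw [ext_gad K g f f1 f2] at h
    obtain ⟨x, hx1, hx2, y, hy1, hy2, hxy, -⟩ := h
    rw [r2, c1] at hx1
    rw [r4, c2] at hy1
    obtain ⟨u, hu, rfl⟩ := inv_surj (g := g) (φ := φ) hinj x
    obtain ⟨w, hw, rfl⟩ := inv_surj (g := g) (φ := φ) hinj y
    have hu0 : u = 0 := by
      by_contra h0
      obtain ⟨d, rfl⟩ : ∃ d, u = d + 1 := ⟨u - 1, by omega⟩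
      by_cases hd : d = f.1.2
      · exact hx1 (by rw [hd])
      · exact hx2 d (by omega) hd rfl
    have hw0 : w = 0 := by
      by_contra h0
      obtain ⟨d, rfl⟩ : ∃ d, w = d + 1 := ⟨w - 1, by omega⟩
      by_cases hd : d = f.2.2
      · exact hy1 (by rw [hd])
      · exact hy2 d (by omega) hd rfl
    rw [hu0, hw0] at hxy
    exact hxy rfl
  · intro h
    have hne : ∀ a ≤ K, ∀ b ≤ K, a ≠ b → σ a ≠ σ b := fun a ha b hb hab h => hab (hinj a ha b hb h)
    by_cases c1 : φ f.1.1 = f.1.2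
    · have c2 : φ f.2.1 ≠ f.2.2 := fun h2 => h ⟨c1, h2⟩
      refine ⟨_, (ext_gad K g f f1 f2 _ _).2 ⟨σ 0, ?_, fun c hc _ => ?_, σ (f.2.2 + 1), ?_,
        fun c hc hca => ?_, ?_, rfl⟩⟩
      · rw [r2]
        exact hne _ (by omega) _ (by omega) (by omega)
      · exact hne _ (by omega) _ (by omega) (by omega)
      · rw [r4]
        exact hne _ (by omega) _ (by omega) (by omega)
      · exact hne _ (by omega) _ (by omega) (by omega)
      · exact hne _ (by omega) _ (by omega) (by omega)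
    · refine ⟨_, (ext_gad K g f f1 f2 _ _).2 ⟨σ (f.1.2 + 1), ?_, fun c hc _ => ?_, σ 0, ?_,
        fun c hc hca => ?_, ?_, rfl⟩⟩
      · rw [r2]
        exact hne _ (by omega) _ (by omega) (by omega)
      · exact hne _ (by omega) _ (by omega) (by omega)
      · rw [r4]
        exact hne _ (by omega) _ (by omega) (by omega)
      · exact hne _ (by omega) _ (by omega) (by omega)
      · exact hne _ (by omega) _ (by omega) (by omega)

theorem gad_inv {K g : ℕ} {φ : ℕ → ℕ} {σ τ : ℕ → Fin (K + 1)} (hI : Inv K g φ σ)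
    (f : (ℕ × ℕ) × (ℕ × ℕ)) (hf : f.1.1 < g ∧ f.2.1 < g ∧ f.1.2 < K ∧ f.2.2 < K)
    (h : Ext (K + 1) σ (gad K g f) τ) : Inv K g φ τ := by
  rw [ext_gad K g f hf.1 hf.2.1] at h
  obtain ⟨x, -, -, y, -, -, -, rfl⟩ := h
  have hag : ∀ a < K + 1 + g,
      Function.update (Function.update σ (K + 1 + g) x) (K + 2 + g) y a = σ a := by
    intro a ha
    rw [Function.update_of_ne (by omega), Function.update_of_ne (by omega)]
  refine ⟨fun a ha b hb hab => ?_, fun i hi => ?_⟩
  · rw [hag a (by omega), hag b (by omega)] at hab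
    exact hI.1 a ha b hb hab
  · have h1 := (hI.2 i hi).1
    rw [hag _ (by omega), hag _ (by omega)]
    exact hI.2 i hi

theorem gads_iff {K g : ℕ} {φ : ℕ → ℕ} (cf : List ((ℕ × ℕ) × (ℕ × ℕ))) (hcf : CfOk K g cf)
    {σ : ℕ → Fin (K + 1)} (hI : Inv K g φ σ) :
    (∃ τ, Ext (K + 1) σ (cf.flatMap (gad K g)) τ) ↔
      ∀ f ∈ cf, ¬(φ f.1.1 = f.1.2 ∧ φ f.2.1 = f.2.2) := by
  induction cf generalizing σ with
  | nil =>
    constructor
    · intro _ f hf
      exact absurd hf List.not_mem_nil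
    · intro _
      exact ⟨σ, rfl⟩
  | cons f cf ih =>
    have hf := hcf f List.mem_cons_self
    have hcf' : CfOk K g cf := fun f' hf' => hcf f' (List.mem_cons_of_mem _ hf')
    rw [List.flatMap_cons]
    constructor
    · rintro ⟨τ, h⟩
      rw [ext_append] at h
      obtain ⟨ρ, h1, h2⟩ := h
      have h3 := (gad_iff hI f hf).1 ⟨ρ, h1⟩
      have h4 := (ih hcf' (gad_inv hI f hf h1)).1 ⟨τ, h2⟩
      intro f' hf'
      rcases List.mem_cons.1 hf' with rfl | hf'
      · exact h3
      · exact h4 f' hf'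
    · intro h
      obtain ⟨ρ, h1⟩ := (gad_iff hI f hf).2 (h f List.mem_cons_self)
      obtain ⟨τ, h2⟩ := (ih hcf' (gad_inv hI f hf h1)).2
        (fun f' hf' => h f' (List.mem_cons_of_mem _ hf'))
      exact ⟨τ, (ext_append _ _ _ _).2 ⟨ρ, h1, h2⟩⟩

theorem COL : S_COL := by
  intro K g cf hcf
  constructor
  · rintro ⟨c, τ, h⟩
    unfold prog at h
    rw [ext_append] at h
    obtain ⟨ρ₁, h1, h⟩ := h
    rw [ext_append] at h
    obtain ⟨ρ₂, h2, h3⟩ := h
    have hinj := pal_fwd K c ρ₁ h1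
    obtain ⟨hag, hrow⟩ := rws_fwd K g ρ₁ ρ₂ h2
    have hex : ∀ i : ℕ, ∃ k : ℕ, i < g → k < K ∧ ρ₂ (K + 1 + i) = ρ₂ (k + 1) := by
      intro i
      by_cases hi : i < g
      · obtain ⟨a, ha, he⟩ := inv_surj (g := g) (φ := id) hinj (ρ₂ (K + 1 + i))
        have ha0 : a ≠ 0 := by
          rintro rfl
          exact hrow i hi he.symm
        refine ⟨a - 1, fun _ => ⟨by omega, ?_⟩⟩
        rw [show a - 1 + 1 = a by omega, hag a ha, he]
      · exact ⟨0, fun h => absurd h hi⟩
    choose φ hφ using hex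
    have hI : Inv K g φ ρ₂ := by
      refine ⟨fun a ha b hb hab => ?_, fun i hi => hφ i hi⟩
      rw [hag a ha, hag b hb] at hab
      exact hinj a ha b hb hab
    exact ⟨φ, fun i hi => (hφ i hi).1, (gads_iff cf hcf hI).1 ⟨τ, h3⟩⟩
  · rintro ⟨φ, hφ, hc⟩
    have h1 := pal_bwd K K le_rfl
    have h2 := rws_bwd K g (pc K K) (fun i => pc K K (φ i + 1)) (by
      intro i hi h
      have h3 := congrArg Fin.val h
      have h4 := hφ i hi
      unfold pc at h3
      rw [if_pos (by omega), if_pos (by omega)] at h3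
      have h5 : min (φ i + 1) K = min 0 K := h3
      omega)
    set ρ : ℕ → Fin (K + 1) := fun a => if K + 1 ≤ a ∧ a < K + 1 + g then
      pc K K (φ (a - (K + 1)) + 1) else pc K K a with hρ
    have hI : Inv K g φ ρ := by
      refine ⟨fun a ha b hb hab => ?_, fun i hi => ⟨hφ i hi, ?_⟩⟩
      · simp only [hρ] at hab
        rw [if_neg (by omega), if_neg (by omega)] at hab
        have h3 := congrArg Fin.val hab
        unfold pc at h3
        rw [if_pos ha, if_pos hb] at h3
        have h5 : min a K = min b K := h3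
        omega
      · have h4 := hφ i hi
        simp only [hρ]
        rw [if_pos (by omega), if_neg (by omega), show K + 1 + i - (K + 1) = i by omega]
    obtain ⟨τ, h3⟩ := (gads_iff cf hcf hI).2 hc
    refine ⟨⟨0, by omega⟩, τ, ?_⟩
    unfold prog
    rw [ext_append]
    refine ⟨pc K K, h1, ?_⟩
    rw [ext_append]
    exact ⟨ρ, h2, h3⟩

end Pool.Agent.H48.SCcol
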