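import Pool.Agent.H683.SC.PosPStm

/-!
# The letters of a term are computed in polynomial time (`S_PTOK` of the project SP)
-/

set_option autoImplicit false

namespace Pool.Agent.NPC.H48SP

open Turing Pool.Agent.H683.SC Pool.Agent.H633R2

/-- one step: the first tree of the stack is read -/
def G (s : List T × List T) (x : T) (st : List T) : List T × List T :=
  if x.hd = T.nil then (st, T.node (toT (0 : ℕ)) (T.node x.tl x.tl) :: s.2)
  else if x.hd = T.node T.nil T.nil then
    (x.tl.tl :: x.tl.hd :: st, T.node (toT (1 : ℕ)) (toT ((0 : ℕ), (0 : ℕ))) :: s.2)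
  else if x.hd = T.node T.nil (T.node T.nil T.nil) then
    (x.tl.tl :: st, T.node (toT (2 : ℕ)) x.tl.hd :: s.2)
  else (x.tl.tl :: st, T.node (toT (3 : ℕ)) x.tl.hd :: s.2)

/-- one step -/
def F (s : List T × List T) : List T × List T :=
  match s.1 with
  | [] => s
  | x :: st => G s x st

theorem poly_G : Poly (fun p : (List T × List T) × T × List T => G p.1 p.2.1 p.2.2) := by
  unfold G
  have hx : Poly (fun p : (List T × List T) × T × List T => p.2.1) := Poly.fst (Poly.snd Poly.id)
  have hst : Poly (fun p : (List T × List T) × T × List T => p.2.2) := Poly.snd (Poly.snd Poly.id)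
  have ho : Poly (fun p : (List T × List T) × T × List T => p.1.2) := Poly.snd (Poly.fst Poly.id)
  refine Poly.ite (Poly.decide_eq (Poly.hd hx) (Poly.const T.nil)) ?_ ?_
  · exact Poly.pair hst (Poly.cons (Poly.node (Poly.const _)
      (Poly.node (Poly.tl hx) (Poly.tl hx))) ho)
  refine Poly.ite (Poly.decide_eq (Poly.hd hx) (Poly.const (T.node T.nil T.nil))) ?_ ?_
  · exact Poly.pair (Poly.cons (Poly.tl (Poly.tl hx)) (Poly.cons (Poly.hd (Poly.tl hx)) hst))
      (Poly.cons (Poly.const _) ho)
  refine Poly.ite (Poly.decide_eq (Poly.hd hx)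
    (Poly.const (T.node T.nil (T.node T.nil T.nil)))) ?_ ?_
  · exact Poly.pair (Poly.cons (Poly.tl (Poly.tl hx)) hst)
      (Poly.cons (Poly.node (Poly.const _) (Poly.hd (Poly.tl hx))) ho)
  · exact Poly.pair (Poly.cons (Poly.tl (Poly.tl hx)) hst)
      (Poly.cons (Poly.node (Poly.const _) (Poly.hd (Poly.tl hx))) ho)

theorem poly_F : Poly F := by
  refine (Poly.listCases (l := fun s : List T × List T => s.1) (g := fun s => s)
    (h := fun s x st => G s x st) (Poly.fst Poly.id) Poly.id poly_G).congr ?_
  rintro ⟨l, o⟩
  cases l <;> rfl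

theorem size_nat1 : (toT (1 : ℕ)).size = 5 := by
  have h : Nat.bits 1 = [true] := by simp [Nat.bits]
  rw [toT_nat, h]
  simp

theorem size_nat2 : (toT (2 : ℕ)).size = 7 := by
  have h : Nat.bits 2 = [false, true] := by
    have := Nat.bit0_bits 1 (by norm_num)
    simpa using this
  rw [toT_nat, h]
  simp

theorem size_nat3 : (toT (3 : ℕ)).size = 9 := by
  have h : Nat.bits 3 = [true, true] := by
    have := Nat.bit1_bits 1
    simpa using this
  rw [toT_nat, h]
  simp

theorem size_nat0 : (toT (0 : ℕ)).size = 1 := by
  have h : Nat.bits 0 = [] := by simp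
  rw [toT_nat, h]
  simp

theorem size_hdtl (x : T) : x.hd.size + x.tl.size ≤ x.size + 1 := by
  cases x <;> simp
  omega

theorem sz_T (x : T) : sz x = x.size := rfl

/-- the potential -/
def pot (s : List T × List T) : ℕ := 3 * sz s.1 + sz s.2

theorem pot_F (s : List T × List T) : pot (F s) ≤ pot s + 16 := by
  obtain ⟨l, o⟩ := s
  cases l with
  | nil => simp [F]
  | cons x st =>
    have h1 := T.size_tl_le x
    have h2 := size_hdtl x.tl
    have h3 := T.size_tl_le x.tl
    have h4 := T.size_hd_le x.tl
    have h5 := T.size_pos x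
    show pot (G (x :: st, o) x st) ≤ _
    unfold G pot
    split_ifs
    · simp only [sz_list_cons, sz_T, T.size_node, size_nat0]
      omega
    · simp only [sz_list_cons, sz_T, T.size_node, size_nat1, toT_pair, size_nat0]
      omega
    · simp only [sz_list_cons, sz_T, T.size_node, size_nat2]
      omega
    · simp only [sz_list_cons, sz_T, T.size_node, size_nat3]
      omega

theorem pot_iter (k : ℕ) (s : List T × List T) : pot (F^[k] s) ≤ pot s + 16 * k := by
  induction k generalizing s with
  | zero => simp
  | succ k ih =>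
    rw [Function.iterate_succ_apply]
    have h1 := ih (F s)
    have h2 := pot_F s
    omega

theorem F_nil (o : List T) (k : ℕ) : F^[k] ([], o) = ([], o) := by
  induction k with
  | zero => rfl
  | succ k ih => rw [Function.iterate_succ_apply]; exact ih

/-- the number of steps -/
def cnt : KExp → ℕ
  | KExp.vtx _ => 1
  | KExp.union s t => cnt s + cnt t + 1
  | KExp.join _ _ t => cnt t + 1
  | KExp.relab _ _ t => cnt t + 1

theorem cnt_le (t : KExp) : cnt t ≤ t.tree.size := by
  induction t with
  | vtx a =>
    have := T.size_pos (KExp.vtx a).tree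
    simp only [cnt]
    omega
  | union s t ihs iht =>
    simp only [cnt, KExp.tree, T.size_node]
    omega
  | join a b t ih =>
    simp only [cnt, KExp.tree, T.size_node]
    omega
  | relab a b t ih =>
    simp only [cnt, KExp.tree, T.size_node]
    omega

theorem run_term (t : KExp) : ∀ (st o : List T),
    F^[cnt t] (t.tree :: st, o) = (st, t.toks.map toT ++ o) := by
  induction t with
  | vtx a =>
    intro st o
    rfl
  | union s t ihs iht =>
    intro st o
    have h1 : F ((KExp.union s t).tree :: st, o) =
        (t.tree :: s.tree :: st, toT ((1 : ℕ), (0 : ℕ), (0 : ℕ)) :: o) := rfl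
    have hc : cnt (KExp.union s t) = cnt s + cnt t + 1 := rfl
    rw [hc, Function.iterate_succ_apply, h1, Function.iterate_add_apply, iht, ihs]
    simp [KExp.toks]
  | join a b t ih =>
    intro st o
    have h1 : F ((KExp.join a b t).tree :: st, o) =
        (t.tree :: st, toT ((2 : ℕ), a, b) :: o) := rfl
    have hc : cnt (KExp.join a b t) = cnt t + 1 := rfl
    rw [hc, Function.iterate_succ_apply, h1, ih]
    simp [KExp.toks]
  | relab a b t ih =>
    intro st o
    have h1 : F ((KExp.relab a b t).tree :: st, o) =
        (t.tree :: st, toT ((3 : ℕ), a, b) :: o) := rfl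
    have hc : cnt (KExp.relab a b t) = cnt t + 1 := rfl
    rw [hc, Function.iterate_succ_apply, h1, ih]
    simp [KExp.toks]

theorem toT_map {α : Type} [TEnc α] (l : List α) : toT (l.map toT : List T) = toT l := by
  induction l with
  | nil => rfl
  | cons a l ih =>
    rw [List.map_cons, toT_list_cons, toT_list_cons, ih]
    rfl

theorem PTOK : S_PTOK := by
  have h1 : PC (bits : KExp → List Bool) (fun s : List T × List T => (toT s).enc)
      (fun t : KExp => F^[(toT t).size] ([toT t], [])) := by
    refine PC.iterate (α := KExp) (ea := bits) (β := List T × List T) (tb := toT)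
      (n := fun t : KExp => toT t) (x := fun t : KExp => ([toT t], [])) (f := F)
      (Poly.toT' (Poly.id (α := KExp))) ?_ poly_F
      (Polynomial.C 19 * Polynomial.X + Polynomial.C 8) ?_
    · exact Poly.pair (Poly.cons (Poly.toT' (Poly.id (α := KExp))) (Poly.const [])) (Poly.const [])
    · intro t k hk
      have h2 := pot_iter k ([toT t], [])
      have h3 : (toT (F^[k] ([toT t], []))).size ≤ pot (F^[k] ([toT t], [])) + 1 := by
        have h4 : (toT (F^[k] ([toT t], []))).size = sz (F^[k] ([toT t], [])) := rfl
        rw [h4]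
        unfold pot
        have h5 : sz (F^[k] ([toT t], [])) =
          sz (F^[k] ([toT t], [])).1 + sz (F^[k] ([toT t], [])).2 + 1 := sz_pair _ _
        omega
      have h6 : pot ([toT t], []) = 3 * ((toT t).size + 2) + 1 := by
        unfold pot
        simp only [sz_list_cons, sz_list_nil, sz_T]
      have h7 : (bits t).length = (toT t).size := rfl
      rw [h7]
      simp only [Polynomial.eval_add, Polynomial.eval_mul, Polynomial.eval_C, Polynomial.eval_X]
      omega
  have h2 : Poly (fun t : KExp => F^[(toT t).size] ([toT t], [])) := h1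
  refine Poly.of_toT ?_
  refine (Poly.toT' (Poly.snd h2)).congr fun t => ?_
  have h3 : (toT t).size = ((toT t).size - cnt t) + cnt t := by
    have : cnt t ≤ (toT t).size := cnt_le t
    omega
  have h4 : (toT t : T) = t.tree := rfl
  rw [h3, Function.iterate_add_apply, h4, run_term, F_nil, List.append_nil, toT_map]

end Pool.Agent.NPC.H48SP
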