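import Pool.Agent.H770.GS.TE
import Pool.Agent.H106.TBbasic

/-!
# Project TE, S_gain: a numerical inequality with one integral

After monotonicity in `w` everything is reduced to a polynomial inequality in `s = r²` and `b = c - 1` on the box
`[1, 9/4] × [2/5, 3/4]`, which is proved by Bernstein coefficients.
-/

set_option autoImplicit false

open MeasureTheory Set intervalIntegral Filter Topology

namespace Pool.Agent.H48.TEgain

open Pool.Agent.H770.GS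

lemma cf0 (b : ℝ) (h1 : 2 / 5 ≤ b) (h2 : b ≤ 3 / 4) :
    0 ≤ (12) + (-6) * b + (-16/5) * b ^ 2 + (32/5) * b ^ 3 + (-37/10) * b ^ 4 + (-124/25) * b ^ 5 + (8953/150) * b ^ 6 + (-6028/75) * b ^ 7 + (418/15) * b ^ 8 := by
  obtain ⟨p, hp⟩ : ∃ p, p = b - 2 / 5 := ⟨_, rfl⟩
  obtain ⟨q, hq⟩ : ∃ q, q = 3 / 4 - b := ⟨_, rfl⟩
  have hp0 : 0 ≤ p := by rw [hp]; linarith
  have hq0 : 0 ≤ q := by rw [hq]; linarith
  have h : 0 ≤ 1213842587648/28824005 * q ^ 8 +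
      9471412764672/28824005 * p ^ 1 * q ^ 7 +
      2778476724224/2470629 * p ^ 2 * q ^ 6 +
      1818277949440/823543 * p ^ 3 * q ^ 5 +
      2242707856000/823543 * p ^ 4 * q ^ 4 +
      1781352880000/823543 * p ^ 5 * q ^ 3 +
      889708585000/823543 * p ^ 6 * q ^ 2 +
      1784590800000/5764801 * p ^ 7 * q ^ 1 +
      223653843750/5764801 * p ^ 8 := by
    positivity
  rw [hp, hq] at h
  refine h.trans_eq ?_
  ring

lemma cf1 (b : ℝ) (h1 : 2 / 5 ≤ b) (h2 : b ≤ 3 / 4) :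
    0 ≤ (207/16) + (-93/8) * b + (-541/80) * b ^ 2 + (52/5) * b ^ 3 + (-887/160) * b ^ 4 + (-983/50) * b ^ 5 + (337583/2400) * b ^ 6 + (-4521/25) * b ^ 7 + (627/10) * b ^ 8 := by
  obtain ⟨p, hp⟩ : ∃ p, p = b - 2 / 5 := ⟨_, rfl⟩
  obtain ⟨q, hq⟩ : ∃ q, q = 3 / 4 - b := ⟨_, rfl⟩
  have hp0 : 0 ≤ p := by rw [hp]; linarith
  have hq0 : 0 ≤ q := by rw [hq]; linarith
  have h : 0 ≤ 3013941530624/86472015 * q ^ 8 +
      22539082049536/86472015 * p ^ 1 * q ^ 7 +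
      2110277211904/2470629 * p ^ 2 * q ^ 6 +
      1323943018240/823543 * p ^ 3 * q ^ 5 +
      1572061811000/823543 * p ^ 4 * q ^ 4 +
      1210491755000/823543 * p ^ 5 * q ^ 3 +
      1181354241875/1647086 * p ^ 6 * q ^ 2 +
      1162282190625/5764801 * p ^ 7 * q ^ 1 +
      142210406250/5764801 * p ^ 8 := by
    positivity
  rw [hp, hq] at h
  refine h.trans_eq ?_
  ring

lemma cf2 (b : ℝ) (h1 : 2 / 5 ≤ b) (h2 : b ≤ 3 / 4) :
    0 ≤ (111/8) + (-69/4) * b + (-5231/480) * b ^ 2 + (241/15) * b ^ 3 + (-6167/960) * b ^ 4 + (-1584/25) * b ^ 5 + (529287/1600) * b ^ 6 + (-40689/100) * b ^ 7 + (5643/40) * b ^ 8 := by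
  obtain ⟨p, hp⟩ : ∃ p, p = b - 2 / 5 := ⟨_, rfl⟩
  obtain ⟨q, hq⟩ : ∃ q, q = 3 / 4 - b := ⟨_, rfl⟩
  have hp0 : 0 ≤ p := by rw [hp]; linarith
  have hq0 : 0 ≤ q := by rw [hq]; linarith
  have h : 0 ≤ 2391214587904/86472015 * q ^ 8 +
      5592411953152/28824005 * p ^ 1 * q ^ 7 +
      1465828237184/2470629 * p ^ 2 * q ^ 6 +
      858449063040/823543 * p ^ 3 * q ^ 5 +
      961491528500/823543 * p ^ 4 * q ^ 4 +
      2142151827500/2470629 * p ^ 5 * q ^ 3 +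
      4141867991875/9882516 * p ^ 6 * q ^ 2 +
      1362857865625/11529602 * p ^ 7 * q ^ 1 +
      656093953125/46118408 * p ^ 8 := by
    positivity
  rw [hp, hq] at h
  refine h.trans_eq ?_
  ring

lemma cf3 (b : ℝ) (h1 : 2 / 5 ≤ b) (h2 : b ≤ 3 / 4) :
    0 ≤ (237/16) + (-183/8) * b + (-2497/160) * b ^ 2 + (117/5) * b ^ 3 + (-3357/2560) * b ^ 4 + (-148473/800) * b ^ 5 + (9939591/12800) * b ^ 6 + (-366201/400) * b ^ 7 + (50787/160) * b ^ 8 := by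
  obtain ⟨p, hp⟩ : ∃ p, p = b - 2 / 5 := ⟨_, rfl⟩
  obtain ⟨q, hq⟩ : ∃ q, q = 3 / 4 - b := ⟨_, rfl⟩
  have hp0 : 0 ≤ p := by rw [hp]; linarith
  have hq0 : 0 ≤ q := by rw [hq]; linarith
  have h : 0 ≤ 591079548928/28824005 * q ^ 8 +
      3716238830592/28824005 * p ^ 1 * q ^ 7 +
      283895210688/823543 * p ^ 2 * q ^ 6 +
      431906353840/823543 * p ^ 3 * q ^ 5 +
      871383970125/1647086 * p ^ 4 * q ^ 4 +
      652191463125/1647086 * p ^ 5 * q ^ 3 +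
      5734322310625/26353376 * p ^ 6 * q ^ 2 +
      6586425721875/92236816 * p ^ 7 * q ^ 1 +
      848552671875/92236816 * p ^ 8 := by
    positivity
  rw [hp, hq] at h
  refine h.trans_eq ?_
  ring

lemma cf4 (b : ℝ) (h1 : 2 / 5 ≤ b) (h2 : b ≤ 3 / 4) :
    0 ≤ (63/4) + (-57/2) * b + (-1671/80) * b ^ 2 + (162/5) * b ^ 3 + (8181/320) * b ^ 4 + (-823041/1600) * b ^ 5 + (5823009/3200) * b ^ 6 + (-3295809/1600) * b ^ 7 + (457083/640) * b ^ 8 := by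
  obtain ⟨p, hp⟩ : ∃ p, p = b - 2 / 5 := ⟨_, rfl⟩
  obtain ⟨q, hq⟩ : ∃ q, q = 3 / 4 - b := ⟨_, rfl⟩
  have hp0 : 0 ≤ p := by rw [hp]; linarith
  have hq0 : 0 ≤ q := by rw [hq]; linarith
  have h : 0 ≤ 385947353088/28824005 * q ^ 8 +
      1884495224832/28824005 * p ^ 1 * q ^ 7 +
      91003822848/823543 * p ^ 2 * q ^ 6 +
      55320560640/823543 * p ^ 3 * q ^ 5 +
      25777063500/823543 * p ^ 4 * q ^ 4 +
      93228958125/823543 * p ^ 5 * q ^ 3 +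
      1040645626875/6588344 * p ^ 6 * q ^ 2 +
      7263322190625/92236816 * p ^ 7 * q ^ 1 +
      8908785984375/737894528 * p ^ 8 := by
    positivity
  rw [hp, hq] at h
  refine h.trans_eq ?_
  ring

lemma cfD (b : ℝ) (h1 : 2 / 5 ≤ b) (h2 : b ≤ 3 / 4) :
    0 ≤ 4 * b ^ 2 * (2 + b) - (1 + b) ^ 2 -
      (-11 / 10 + 16 / 5 * b - 19 / 10 * b ^ 2) * (2 * b * (2 + b) * (1 + b) ^ 2) := by
  obtain ⟨p, hp⟩ : ∃ p, p = b - 2 / 5 := ⟨_, rfl⟩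
  obtain ⟨q, hq⟩ : ∃ q, q = 3 / 4 - b := ⟨_, rfl⟩
  have hp0 : 0 ≤ p := by rw [hp]; linarith
  have hq0 : 0 ≤ q := by rw [hq]; linarith
  have h : 0 ≤ 13643776/588245 * q ^ 6 +
      43823104/117649 * p ^ 1 * q ^ 5 +
      132298240/117649 * p ^ 2 * q ^ 4 +
      146371200/117649 * p ^ 3 * q ^ 3 +
      64060000/117649 * p ^ 4 * q ^ 2 +
      21480000/117649 * p ^ 5 * q ^ 1 +
      13034375/117649 * p ^ 6 := by
    positivity
  rw [hp, hq] at h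
  refine h.trans_eq ?_
  ring

/-- the polynomial inequality -/
lemma poly_ineq (s b : ℝ) (hs1 : 1 ≤ s) (hs2 : s ≤ 9 / 4) (h1 : 2 / 5 ≤ b) (h2 : b ≤ 3 / 4) :
    3 * (s * (3 * (1 + b) ^ 2 - 4) - 2 * (1 + b) ^ 2 - 1) ≤
      (1 + s * (-11 / 10 + 16 / 5 * b - 19 / 10 * b ^ 2)) * (4 * s * b ^ 2 *
        (1 / 2 + 3 / 4 * s * b ^ 2 + s ^ 2 * b ^ 2 * (-1 + 22 / 5 * b - 11 / 3 * b ^ 2))) := by
  have hs3 : 0 ≤ s - 1 := by linarith
  have hs4 : 0 ≤ 9 / 4 - s := by linarith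
  have g0 := mul_nonneg (pow_nonneg hs4 4) (cf0 b h1 h2)
  have g1 := mul_nonneg (mul_nonneg (pow_nonneg hs3 1) (pow_nonneg hs4 3)) (cf1 b h1 h2)
  have g2 := mul_nonneg (mul_nonneg (pow_nonneg hs3 2) (pow_nonneg hs4 2)) (cf2 b h1 h2)
  have g3 := mul_nonneg (mul_nonneg (pow_nonneg hs3 3) (pow_nonneg hs4 1)) (cf3 b h1 h2)
  have g4 := mul_nonneg (pow_nonneg hs3 4) (cf4 b h1 h2)
  have e : (1 + s * (-11 / 10 + 16 / 5 * b - 19 / 10 * b ^ 2)) * (4 * s * b ^ 2 *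
        (1 / 2 + 3 / 4 * s * b ^ 2 + s ^ 2 * b ^ 2 * (-1 + 22 / 5 * b - 11 / 3 * b ^ 2))) -
      3 * (s * (3 * (1 + b) ^ 2 - 4) - 2 * (1 + b) ^ 2 - 1) =
    256/625 * ((9 / 4 - s) ^ 4 * ((12) + (-6) * b + (-16/5) * b ^ 2 + (32/5) * b ^ 3 + (-37/10) * b ^ 4 + (-124/25) * b ^ 5 + (8953/150) * b ^ 6 + (-6028/75) * b ^ 7 + (418/15) * b ^ 8)) +
    1024/625 * ((s - 1) ^ 1 * (9 / 4 - s) ^ 3 * ((207/16) + (-93/8) * b + (-541/80) * b ^ 2 + (52/5) * b ^ 3 + (-887/160) * b ^ 4 + (-983/50) * b ^ 5 + (337583/2400) * b ^ 6 + (-4521/25) * b ^ 7 + (627/10) * b ^ 8)) +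
    1536/625 * ((s - 1) ^ 2 * (9 / 4 - s) ^ 2 * ((111/8) + (-69/4) * b + (-5231/480) * b ^ 2 + (241/15) * b ^ 3 + (-6167/960) * b ^ 4 + (-1584/25) * b ^ 5 + (529287/1600) * b ^ 6 + (-40689/100) * b ^ 7 + (5643/40) * b ^ 8)) +
    1024/625 * ((s - 1) ^ 3 * (9 / 4 - s) ^ 1 * ((237/16) + (-183/8) * b + (-2497/160) * b ^ 2 + (117/5) * b ^ 3 + (-3357/2560) * b ^ 4 + (-148473/800) * b ^ 5 + (9939591/12800) * b ^ 6 + (-366201/400) * b ^ 7 + (50787/160) * b ^ 8)) +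
    256/625 * ((s - 1) ^ 4 * ((63/4) + (-57/2) * b + (-1671/80) * b ^ 2 + (162/5) * b ^ 3 + (8181/320) * b ^ 4 + (-823041/1600) * b ^ 5 + (5823009/3200) * b ^ 6 + (-3295809/1600) * b ^ 7 + (457083/640) * b ^ 8)) := by
    ring
  have h0 : 0 ≤ 256/625 * ((9 / 4 - s) ^ 4 * ((12) + (-6) * b + (-16/5) * b ^ 2 + (32/5) * b ^ 3 + (-37/10) * b ^ 4 + (-124/25) * b ^ 5 + (8953/150) * b ^ 6 + (-6028/75) * b ^ 7 + (418/15) * b ^ 8)) +
    1024/625 * ((s - 1) ^ 1 * (9 / 4 - s) ^ 3 * ((207/16) + (-93/8) * b + (-541/80) * b ^ 2 + (52/5) * b ^ 3 + (-887/160) * b ^ 4 + (-983/50) * b ^ 5 + (337583/2400) * b ^ 6 + (-4521/25) * b ^ 7 + (627/10) * b ^ 8)) +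
    1536/625 * ((s - 1) ^ 2 * (9 / 4 - s) ^ 2 * ((111/8) + (-69/4) * b + (-5231/480) * b ^ 2 + (241/15) * b ^ 3 + (-6167/960) * b ^ 4 + (-1584/25) * b ^ 5 + (529287/1600) * b ^ 6 + (-40689/100) * b ^ 7 + (5643/40) * b ^ 8)) +
    1024/625 * ((s - 1) ^ 3 * (9 / 4 - s) ^ 1 * ((237/16) + (-183/8) * b + (-2497/160) * b ^ 2 + (117/5) * b ^ 3 + (-3357/2560) * b ^ 4 + (-148473/800) * b ^ 5 + (9939591/12800) * b ^ 6 + (-366201/400) * b ^ 7 + (50787/160) * b ^ 8)) +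
    256/625 * ((s - 1) ^ 4 * ((63/4) + (-57/2) * b + (-1671/80) * b ^ 2 + (162/5) * b ^ 3 + (8181/320) * b ^ 4 + (-823041/1600) * b ^ 5 + (5823009/3200) * b ^ 6 + (-3295809/1600) * b ^ 7 + (457083/640) * b ^ 8)) := by
    have k : ∀ x y z u v : ℝ, 0 ≤ x → 0 ≤ y → 0 ≤ z → 0 ≤ u → 0 ≤ v →
        0 ≤ 256/625 * x + 1024/625 * y + 1536/625 * z + 1024/625 * u + 256/625 * v := by
      intro x y z u v hx hy hz hu hv
      positivity
    exact k _ _ _ _ _ g0 g1 g2 g3 g4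
  linarith

/-- lower bound for the exponent -/
lemma expo (s c : ℝ) (hs : 0 ≤ s) (h1 : 7 / 5 ≤ c) (h2 : c ≤ 7 / 4) :
    s * (-11 / 10 + 16 / 5 * (c - 1) - 19 / 10 * (c - 1) ^ 2) ≤
      s * (c ^ 2 - 2) / (2 * (c ^ 2 - 1)) - s * (2 - c) ^ 2 / (2 * c ^ 2) := by
  obtain ⟨b, hb⟩ : ∃ b, b = c - 1 := ⟨_, rfl⟩
  have hc : c = 1 + b := by rw [hb]; ring
  have hb1 : 2 / 5 ≤ b := by rw [hb]; linarith
  have hb2 : b ≤ 3 / 4 := by rw [hb]; linarith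
  have hb0 : 0 < b := by linarith
  have hN := cfD b hb1 hb2
  have hden : 0 < 2 * b * (2 + b) * (1 + b) ^ 2 := by positivity
  have h3 : s * (c ^ 2 - 2) / (2 * (c ^ 2 - 1)) - s * (2 - c) ^ 2 / (2 * c ^ 2) -
      s * (-11 / 10 + 16 / 5 * (c - 1) - 19 / 10 * (c - 1) ^ 2) =
      s * ((4 * b ^ 2 * (2 + b) - (1 + b) ^ 2 -
      (-11 / 10 + 16 / 5 * b - 19 / 10 * b ^ 2) * (2 * b * (2 + b) * (1 + b) ^ 2)) /
        (2 * b * (2 + b) * (1 + b) ^ 2)) := by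
    have e1 : c ^ 2 - 1 = b * (2 + b) := by rw [hc]; ring
    have e2 : c - 1 = b := hb.symm
    rw [e1, e2, hc]
    have n1 : b ≠ 0 := hb0.ne'
    have n2 : 2 + b ≠ 0 := by positivity
    have n3 : 1 + b ≠ 0 := by positivity
    field_simp
    ring
  have h4 : 0 ≤ s * ((4 * b ^ 2 * (2 + b) - (1 + b) ^ 2 -
      (-11 / 10 + 16 / 5 * b - 19 / 10 * b ^ 2) * (2 * b * (2 + b) * (1 + b) ^ 2)) /
        (2 * b * (2 + b) * (1 + b) ^ 2)) := mul_nonneg hs (div_nonneg hN hden.le)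
  linarith

/-- the polynomial factor of the weight -/
noncomputable def qq (r x : ℝ) : ℝ := x ^ 3 * (2 * r - x) / 4 + 1 - r * x + 3 * x ^ 2 / 2

lemma qq_nonneg {r x : ℝ} (hr : r ^ 2 ≤ 9 / 4) (h0 : 0 ≤ x) (h1 : x ≤ 2 * r) : 0 ≤ qq r x := by
  unfold qq
  have h2 : 0 ≤ x ^ 3 * (2 * r - x) / 4 :=
    div_nonneg (mul_nonneg (pow_nonneg h0 3) (by linarith)) (by norm_num)
  nlinarith [sq_nonneg (x - r / 3), sq_nonneg x, sq_nonneg (r * x - 3 / 2)]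

lemma Mc_ge {r c a : ℝ} (hr : 0 < r) (h0 : 0 ≤ c * a) (h1 : c * a ≤ 2 * r) :
    eL r (c * a) * qq r (c * a) ≤ Mc r c a := by
  have hb := Pool.Agent.H106.TB.basic r hr
  obtain ⟨_, _, _, _, _, _, _, hp⟩ := hb
  have h2 := hp (c * a) h0 h1
  unfold Mc
  rw [Pool.Agent.H106.TB.nL_eq, Pool.Agent.H106.TB.nLd_eq]
  have h3 := mul_le_mul_of_nonneg_left h2 (pow_nonneg h0 3)
  unfold qq
  nlinarith

lemma Mc_nonneg {r c a : ℝ} (hr : 0 < r) (hr2 : r ^ 2 ≤ 9 / 4) (h0 : 0 ≤ c * a)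
    (h1 : c * a ≤ 2 * r) : 0 ≤ Mc r c a :=
  (mul_nonneg (Real.exp_pos _).le (qq_nonneg hr2 h0 h1)).trans (Mc_ge hr h0 h1)

lemma Mc_cont (r c : ℝ) : Continuous (Mc r c) := by
  have h1 := nL_cont r
  have h2 := fL_cont r
  unfold Mc nLd
  fun_prop

/-- the lower bound for the integrand -/
noncomputable def gg (r c a : ℝ) : ℝ :=
  Real.exp (-r ^ 2) * (a * (1 + r * (c * a) - 3 / 4 * (c * a) ^ 2) * qq r (c * a))

lemma integrand {r c a : ℝ} (hr : 0 < r) (hr2 : r ^ 2 ≤ 9 / 4) (hc : 2 ≤ c ^ 2) (ha : 0 ≤ a)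
    (h0 : 0 ≤ c * a) (h1 : c * a ≤ 2 * r) : gg r c a ≤ a * Mc r c a * W a := by
  have hq := qq_nonneg hr2 h0 h1
  have hM := Mc_ge hr h0 h1
  have hW : 0 < W a := Real.exp_pos _
  have h2 : a * (eL r (c * a) * qq r (c * a)) * W a ≤ a * Mc r c a * W a :=
    mul_le_mul_of_nonneg_right (mul_le_mul_of_nonneg_left hM ha) hW.le
  refine le_trans ?_ h2
  have h3 : eL r (c * a) * W a = Real.exp (-r ^ 2) *
      Real.exp (r * (c * a) - (c * a) ^ 2 / 2 - a ^ 2 / 2) := by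
    unfold eL W
    rw [← Real.exp_add, ← Real.exp_add]
    congr 1
    ring
  have h4 : 1 + r * (c * a) - 3 / 4 * (c * a) ^ 2 ≤
      Real.exp (r * (c * a) - (c * a) ^ 2 / 2 - a ^ 2 / 2) := by
    have h5 := Real.add_one_le_exp (r * (c * a) - (c * a) ^ 2 / 2 - a ^ 2 / 2)
    have h6 : 0 ≤ (c ^ 2 - 2) * a ^ 2 := mul_nonneg (by linarith) (sq_nonneg a)
    nlinarith
  have h7 : a * (eL r (c * a) * qq r (c * a)) * W a = Real.exp (-r ^ 2) *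
      (a * qq r (c * a) * Real.exp (r * (c * a) - (c * a) ^ 2 / 2 - a ^ 2 / 2)) := by
    calc a * (eL r (c * a) * qq r (c * a)) * W a
        = (eL r (c * a) * W a) * (a * qq r (c * a)) := by ring
      _ = _ := by rw [h3]; ring
  rw [h7]
  unfold gg
  refine mul_le_mul_of_nonneg_left ?_ (Real.exp_pos _).le
  have h8 := mul_le_mul_of_nonneg_left h4 (mul_nonneg ha hq)
  calc a * (1 + r * (c * a) - 3 / 4 * (c * a) ^ 2) * qq r (c * a)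
      = a * qq r (c * a) * (1 + r * (c * a) - 3 / 4 * (c * a) ^ 2) := by ring
    _ ≤ _ := h8

/-- antiderivative of `x (1 + r x - 3 x²/4) qq r x` -/
noncomputable def PP (r x : ℝ) : ℝ :=
  1 / 2 * x ^ 2 + (3 / 4 - r ^ 2) / 4 * x ^ 4 + 11 / 20 * r * x ^ 5 +
    (r ^ 2 / 2 - 11 / 8) / 6 * x ^ 6 + -(5 / 56 * r) * x ^ 7 + 3 / 128 * x ^ 8

lemma PP_deriv (r x : ℝ) :
    HasDerivAt (PP r) (x * (1 + r * x - 3 / 4 * x ^ 2) * qq r x) x := by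
  unfold PP
  have h := (((((((hasDerivAt_pow 2 x).const_mul (1 / 2)).add
    ((hasDerivAt_pow 4 x).const_mul ((3 / 4 - r ^ 2) / 4))).add
    ((hasDerivAt_pow 5 x).const_mul (11 / 20 * r))).add
    ((hasDerivAt_pow 6 x).const_mul ((r ^ 2 / 2 - 11 / 8) / 6))).add
    ((hasDerivAt_pow 7 x).const_mul (-(5 / 56 * r)))).add
    ((hasDerivAt_pow 8 x).const_mul (3 / 128)))
  refine h.congr_deriv ?_
  unfold qq
  push_cast
  ring

lemma int_gg (r c A : ℝ) (hc : c ≠ 0) :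
    ∫ a in (0:ℝ)..A, gg r c a = Real.exp (-r ^ 2) * (PP r (c * A) / c ^ 2) := by
  have h1 : ∀ a ∈ uIcc (0:ℝ) A, HasDerivAt (fun a => Real.exp (-r ^ 2) * (PP r (c * a) / c ^ 2))
      (gg r c a) a := by
    intro a _
    have h2 : HasDerivAt (fun a : ℝ => c * a) c a := by
      simpa using (hasDerivAt_id a).const_mul c
    have h3 := ((PP_deriv r (c * a)).comp a h2)
    have h4 := (h3.div_const (c ^ 2)).const_mul (Real.exp (-r ^ 2))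
    refine h4.congr_deriv ?_
    unfold gg
    field_simp
  rw [integral_eq_sub_of_hasDerivAt h1]
  · have h5 : PP r (c * 0) = 0 := by
      unfold PP
      ring
    rw [h5]
    ring
  · apply Continuous.intervalIntegrable
    unfold gg qq
    fun_prop

lemma int_ge {r c w : ℝ} (hr1 : 1 ≤ r) (hr2 : r ^ 2 ≤ 9 / 4) (hc1 : 1 ≤ c) (hc2 : 2 ≤ c ^ 2)
    (hw : 0 < w) (hcw : c * (r + w) ≤ 2 * r) :
    Real.exp (-r ^ 2) * (PP r (2 * r * (c - 1)) / c ^ 2) ≤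
      ∫ a in (0:ℝ)..(r - w), a * Mc r c a * W a := by
  have hc0 : 0 < c := by linarith
  have hr0 : 0 < r := by linarith
  obtain ⟨A, hA⟩ : ∃ A, A = 2 * r * (c - 1) / c := ⟨_, rfl⟩
  have hcA : c * A = 2 * r * (c - 1) := by rw [hA]; field_simp
  have hA0 : 0 ≤ A := by
    rw [hA]
    exact div_nonneg (mul_nonneg (by linarith) (by linarith)) hc0.le
  have hAw : A ≤ r - w := by
    rw [hA, div_le_iff₀ hc0]
    nlinarith
  have hcont : Continuous fun a => a * Mc r c a * W a := by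
    have h1 := Mc_cont r c
    have h2 : Continuous W := by unfold W; fun_prop
    fun_prop
  have hsplit : ∫ a in (0:ℝ)..(r - w), a * Mc r c a * W a =
      (∫ a in (0:ℝ)..A, a * Mc r c a * W a) + ∫ a in A..(r - w), a * Mc r c a * W a :=
    (integral_add_adjacent_intervals (hcont.intervalIntegrable _ _)
      (hcont.intervalIntegrable _ _)).symm
  have hdom : ∀ a, 0 ≤ a → a ≤ r - w → 0 ≤ c * a ∧ c * a ≤ 2 * r := by
    intro a h1 h2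
    refine ⟨mul_nonneg hc0.le h1, ?_⟩
    have h3 : c * a ≤ c * (r + w) := mul_le_mul_of_nonneg_left (by linarith) hc0.le
    linarith
  have h1 : 0 ≤ ∫ a in A..(r - w), a * Mc r c a * W a := by
    refine integral_nonneg hAw fun a ha => ?_
    have ha0 : 0 ≤ a := hA0.trans ha.1
    obtain ⟨h2, h3⟩ := hdom a ha0 ha.2
    exact mul_nonneg (mul_nonneg ha0 (Mc_nonneg hr0 hr2 h2 h3)) (Real.exp_pos _).le
  have h2 : ∫ a in (0:ℝ)..A, gg r c a ≤ ∫ a in (0:ℝ)..A, a * Mc r c a * W a := by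
    refine integral_mono_on hA0 ?_ (hcont.intervalIntegrable _ _) fun a ha => ?_
    · apply Continuous.intervalIntegrable
      unfold gg qq
      fun_prop
    · obtain ⟨h3, h4⟩ := hdom a ha.1 (ha.2.trans hAw)
      exact integrand hr0 hr2 hc2 ha.1 h3 h4
  rw [int_gg r c A hc0.ne', hcA] at h2
  rw [hsplit]
  linarith

/-- the value of the antiderivative -/
lemma PP_val {r b : ℝ} (hb1 : 2 / 5 ≤ b) (hb2 : b ≤ 3 / 4) :
    4 * r ^ 2 * b ^ 2 * (1 / 2 + 3 / 4 * r ^ 2 * b ^ 2 +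
      (r ^ 2) ^ 2 * b ^ 2 * (-1 + 22 / 5 * b - 11 / 3 * b ^ 2)) ≤ PP r (2 * r * b) := by
  have h1 : PP r (2 * r * b) - 4 * r ^ 2 * b ^ 2 * (1 / 2 + 3 / 4 * r ^ 2 * b ^ 2 +
      (r ^ 2) ^ 2 * b ^ 2 * (-1 + 22 / 5 * b - 11 / 3 * b ^ 2)) =
      (r ^ 2) ^ 4 * b ^ 6 * (16 / 3 - 80 / 7 * b + 6 * b ^ 2) := by
    unfold PP
    ring
  have h2 : 0 ≤ 16 / 3 - 80 / 7 * b + 6 * b ^ 2 := by nlinarith
  have h3 : 0 ≤ (r ^ 2) ^ 4 * b ^ 6 * (16 / 3 - 80 / 7 * b + 6 * b ^ 2) :=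
    mul_nonneg (mul_nonneg (by positivity) (pow_nonneg (by linarith) 6)) h2
  linarith

theorem gain : S_gain := by
  intro r c w hr1 hr2 hc1 hc2 hc3 hw hcw
  have hr0 : 0 < r := by linarith
  have hc0 : 0 < c := by linarith
  have hs1 : 1 ≤ r ^ 2 := by nlinarith
  have hs2 : r ^ 2 ≤ 9 / 4 := by nlinarith
  have hcl : 7 / 5 ≤ c := by nlinarith
  have hcu : c ≤ 7 / 4 := by nlinarith
  have hb1 : 2 / 5 ≤ c - 1 := by linarith
  have hb2 : c - 1 ≤ 3 / 4 := by linarith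
  have hI := int_ge hr1 hs2 hc1 hc2 hw hcw
  have hP := PP_val (r := r) hb1 hb2
  have hpoly := poly_ineq (r ^ 2) (c - 1) hs1 hs2 hb1 hb2
  have hexpo := expo (r ^ 2) c (sq_nonneg r) hcl hcu
  obtain ⟨T, hT⟩ : ∃ T, T = 4 * r ^ 2 * (c - 1) ^ 2 * (1 / 2 + 3 / 4 * r ^ 2 * (c - 1) ^ 2 +
      (r ^ 2) ^ 2 * (c - 1) ^ 2 * (-1 + 22 / 5 * (c - 1) - 11 / 3 * (c - 1) ^ 2)) := ⟨_, rfl⟩
  rw [← hT] at hP hpoly
  have hT0 : 0 ≤ T := by
    rw [hT]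
    have h1 : 0 ≤ -1 + 22 / 5 * (c - 1) - 11 / 3 * (c - 1) ^ 2 := by nlinarith
    positivity
  obtain ⟨P, hPd⟩ : ∃ P, P = PP r (2 * r * (c - 1)) := ⟨_, rfl⟩
  rw [← hPd] at hP hI
  obtain ⟨D, hD⟩ : ∃ D, D = -11 / 10 + 16 / 5 * (c - 1) - 19 / 10 * (c - 1) ^ 2 := ⟨_, rfl⟩
  rw [← hD] at hpoly hexpo
  have hD1 : 0 ≤ 1 + r ^ 2 * D := by
    have h1 : -13 / 100 ≤ D := by rw [hD]; nlinarith
    nlinarith
  -- the weight `W w`
  have hwle : w ≤ 2 * r / c - r := by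
    have : r + w ≤ 2 * r / c := by
      rw [le_div_iff₀ hc0]
      linarith
    linarith
  have hWw : Real.exp (-(r ^ 2 * (2 - c) ^ 2 / (2 * c ^ 2))) ≤ W w := by
    unfold W
    apply Real.exp_le_exp.2
    have h1 : r ^ 2 * (2 - c) ^ 2 / (2 * c ^ 2) = (2 * r / c - r) ^ 2 / 2 := by
      field_simp
    rw [h1]
    have h2 : w ^ 2 ≤ (2 * r / c - r) ^ 2 := by nlinarith
    linarith
  -- the left side
  have hLG0 : 0 ≤ LG r c := by
    unfold LG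
    positivity
  have hL : (r + w) * W r ^ 2 * LG r c / (2 * r ^ 2) ≤
      2 / c ^ 2 * Real.exp (-r ^ 2) * Real.exp (-(r ^ 2 * (c ^ 2 - 2) / (2 * (c ^ 2 - 1)))) *
        max 0 (c ^ 2 * (3 * r ^ 2 - 2) - 1 - 4 * r ^ 2) := by
    have h1 : W r ^ 2 = Real.exp (-r ^ 2) := by
      unfold W
      rw [← Real.exp_nat_mul]
      congr 1
      push_cast
      ring
    have h2 : (r + w) * W r ^ 2 * LG r c / (2 * r ^ 2) ≤
        (2 * r / c) * W r ^ 2 * LG r c / (2 * r ^ 2) := by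
      refine div_le_div_of_nonneg_right ?_ (by positivity)
      refine mul_le_mul_of_nonneg_right ?_ hLG0
      exact mul_le_mul_of_nonneg_right (by linarith) (sq_nonneg _)
    refine h2.trans_eq ?_
    rw [h1]
    unfold LG
    field_simp
    try ring
  refine hL.trans ?_
  -- the right side
  have hR : 2 / 3 * Real.exp (-(r ^ 2 * (2 - c) ^ 2 / (2 * c ^ 2))) *
      (Real.exp (-r ^ 2) * (T / c ^ 2)) ≤
      2 / 3 * W w * ∫ a in (0:ℝ)..(r - w), a * Mc r c a * W a := by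
    have h1 : Real.exp (-r ^ 2) * (T / c ^ 2) ≤ ∫ a in (0:ℝ)..(r - w), a * Mc r c a * W a := by
      refine le_trans ?_ hI
      refine mul_le_mul_of_nonneg_left ?_ (Real.exp_pos _).le
      exact div_le_div_of_nonneg_right hP (by positivity)
    have h2 : 0 ≤ Real.exp (-r ^ 2) * (T / c ^ 2) := by positivity
    have h3 : 0 < W w := Real.exp_pos _
    exact mul_le_mul (mul_le_mul_of_nonneg_left hWw (by norm_num)) h1 h2 (by positivity)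
  refine le_trans ?_ hR
  -- comparison
  obtain ⟨α, hα⟩ : ∃ α, α = r ^ 2 * (c ^ 2 - 2) / (2 * (c ^ 2 - 1)) := ⟨_, rfl⟩
  obtain ⟨γ, hγ⟩ : ∃ γ, γ = r ^ 2 * (2 - c) ^ 2 / (2 * c ^ 2) := ⟨_, rfl⟩
  rw [← hα, ← hγ] at hexpo ⊢
  have hmax : 3 * max 0 (c ^ 2 * (3 * r ^ 2 - 2) - 1 - 4 * r ^ 2) ≤ (1 + r ^ 2 * D) * T := by
    rcases max_cases (0:ℝ) (c ^ 2 * (3 * r ^ 2 - 2) - 1 - 4 * r ^ 2) with ⟨h1, _⟩ | ⟨h1, _⟩
    · rw [h1, mul_zero]
      exact mul_nonneg hD1 hT0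
    · rw [h1]
      have h2 : 3 * (c ^ 2 * (3 * r ^ 2 - 2) - 1 - 4 * r ^ 2) =
          3 * (r ^ 2 * (3 * (1 + (c - 1)) ^ 2 - 4) - 2 * (1 + (c - 1)) ^ 2 - 1) := by ring
      rw [h2]
      refine hpoly.trans_eq ?_
      rw [hT]
      try ring
  have hexp : 1 + r ^ 2 * D ≤ Real.exp (α - γ) := by
    have := Real.add_one_le_exp (α - γ)
    linarith
  have h1 : 3 * max 0 (c ^ 2 * (3 * r ^ 2 - 2) - 1 - 4 * r ^ 2) ≤ Real.exp (α - γ) * T :=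
    hmax.trans (mul_le_mul_of_nonneg_right hexp hT0)
  have h2 : Real.exp (-α) * (3 * max 0 (c ^ 2 * (3 * r ^ 2 - 2) - 1 - 4 * r ^ 2)) ≤
      Real.exp (-γ) * T := by
    calc Real.exp (-α) * (3 * max 0 (c ^ 2 * (3 * r ^ 2 - 2) - 1 - 4 * r ^ 2))
        ≤ Real.exp (-α) * (Real.exp (α - γ) * T) :=
          mul_le_mul_of_nonneg_left h1 (Real.exp_pos _).le
      _ = (Real.exp (-α) * Real.exp (α - γ)) * T := by ring
      _ = Real.exp (-γ) * T := by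
          rw [← Real.exp_add]
          congr 2
          ring
  have h3 := mul_le_mul_of_nonneg_left h2
    (show 0 ≤ 2 / (3 * c ^ 2) * Real.exp (-r ^ 2) by positivity)
  refine le_trans (le_of_eq ?_) (h3.trans_eq ?_)
  · field_simp
    try ring
  · field_simp
    try ring

end Pool.Agent.H48.TEgain
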